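import Mathlib

open Filter Function

namespace Pool.Agent.Lib_helper79.Flowchart

/-- An interpretation: a set `fn` of total recursive functions and a set `pr` of total recursive
(decidable) predicates on the natural numbers, of arbitrary finite arities. -/
structure Interp where
  fn : Set (Σ n : ℕ, (List.Vector ℕ n → ℕ))
  pr : Set (Σ n : ℕ, (List.Vector ℕ n → Bool))
  fn_rec : ∀ g ∈ fn, Computable g.2
  pr_rec : ∀ p ∈ pr, Computable p.2

/-- The value of `g` at the contents of the program variables `args` in the memory `s`. -/
def ap {n : ℕ} {β : Type} (g : List.Vector ℕ n → β) (args : Fin n → ℕ) (s : ℕ → ℕ) : β :=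
  g (List.Vector.ofFn fun i => s (args i))

/-- The label of a node of a flowchart over `F`, with its outgoing edges. Program variables are
numbered by the natural numbers.  `op g args dst next` is an operation node: assign to variable
`dst` the value of `g ∈ F` at the variables `args`.  `test p args yes no` is a test node and
`halt out` a halt node, which outputs the content of the variable `out`. -/
inductive Instr (F : Interp) (N : Type) : Type
  | op (g : F.fn) (args : Fin g.1.1 → ℕ) (dst : ℕ) (next : N)
  | test (p : F.pr) (args : Fin p.1.1 → ℕ) (yes no : N)
  | halt (out : ℕ)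

/-- A flowchart over `F`: a start node, whose only edge leads to the node `first`, and a finite
set `N` of operation, test and halt nodes. -/
structure Flowchart (F : Interp) where
  N : Type
  finite_N : Finite N
  first : N
  instr : N → Instr F N

variable {F : Interp}

/-- `P.Run q s n y`: the computation of `P` from the node `q` with memory `s` executes exactly
`n` nodes, the last one being a halt node, and outputs `y`. -/
inductive Flowchart.Run (P : Flowchart F) : P.N → (ℕ → ℕ) → ℕ → ℕ → Prop
  | halt {q : P.N} {s : ℕ → ℕ} {out : ℕ} (h : P.instr q = .halt out) : P.Run q s 1 (s out)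
  | op {q : P.N} {s : ℕ → ℕ} {g : F.fn} {args : Fin g.1.1 → ℕ} {dst : ℕ} {next : P.N} {n y : ℕ}
      (h : P.instr q = .op g args dst next)
      (r : P.Run next (update s dst (ap g.1.2 args s)) n y) : P.Run q s (n + 1) y
  | test_yes {q : P.N} {s : ℕ → ℕ} {p : F.pr} {args : Fin p.1.1 → ℕ} {yes no : P.N} {n y : ℕ}
      (h : P.instr q = .test p args yes no) (hp : ap p.1.2 args s = true)
      (r : P.Run yes s n y) : P.Run q s (n + 1) y
  | test_no {q : P.N} {s : ℕ → ℕ} {p : F.pr} {args : Fin p.1.1 → ℕ} {yes no : P.N} {n y : ℕ}
      (h : P.instr q = .test p args yes no) (hp : ap p.1.2 args s = false)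
      (r : P.Run no s n y) : P.Run q s (n + 1) y

/-- The initial memory: the input in variable `0`, the value `0` in all other variables. -/
def init (x : ℕ) : ℕ → ℕ := fun v => if v = 0 then x else 0

/-- `P.Halts x n y`: on input `x` the computation of `P` halts with output `y` and has length
(number of node executions, the start node included) exactly `n`. -/
def Flowchart.Halts (P : Flowchart F) (x n y : ℕ) : Prop :=
  ∃ m, n = m + 1 ∧ P.Run P.first (init x) m y

/-- `P` computes the unary partial function `f`. -/
def Flowchart.Computes (P : Flowchart F) (f : ℕ →. ℕ) : Prop :=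
  ∀ x y, y ∈ f x ↔ ∃ n, P.Halts x n y

/-- All halt nodes of `P` output a variable from `O`. -/
def Flowchart.OutIn (P : Flowchart F) (O : Set ℕ) : Prop :=
  ∀ (q : P.N) (out : ℕ), P.instr q = .halt out → out ∈ O

/-! In the following definitions `O` is the set of program variables which the halt nodes are
allowed to output.  For `O = Set.univ` every halt node names its output variable freely; for
`O = {o}` there is one fixed output variable `o` (`o = 0` means that it is also the input
variable). -/

/-- `F` is universal: every unary partial recursive function is computed by a flowchart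
over `F`. -/
def Universal (F : Interp) (O : Set ℕ) : Prop :=
  ∀ f : ℕ →. ℕ, Nat.Partrec f → ∃ P : Flowchart F, P.OutIn O ∧ P.Computes f

/-- `f ∈ Φ(t)` for the flowchart measure `Φ` of `F`: `f` is total recursive and some flowchart
over `F` computes `f` and has computations of length at most `t x` on all but finitely many
inputs `x`. -/
def InClass (F : Interp) (O : Set ℕ) (t f : ℕ → ℕ) : Prop :=
  Computable f ∧ ∃ P : Flowchart F, P.OutIn O ∧ P.Computes (f : ℕ →. ℕ) ∧
    ∀ᶠ x in atTop, ∃ n y, P.Halts x n y ∧ n ≤ t x

/-- The complexity class `Φ(t)` is closed under finite variation. -/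
def InvariantAt (F : Interp) (O : Set ℕ) (t : ℕ → ℕ) : Prop :=
  ∀ f g : ℕ → ℕ, Computable f → Computable g → (∀ᶠ x in atTop, f x = g x) →
    InClass F O t f → InClass F O t g

/-- The flowchart measure of `F` is finitely invariant. -/
def FinitelyInvariant (F : Interp) (O : Set ℕ) : Prop :=
  ∀ t : ℕ → ℕ, Computable t → InvariantAt F O t

end Pool.Agent.Lib_helper79.Flowchart
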