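import Pool.Agent.Lib_helper79.Flowchart.Proofs

/-!
For which bounds is the class `Φ(t)` of a flowchart measure closed under finite variation?
-/

open Filter Function

namespace Pool.Agent.Lib_helper79.Flowchart

/-- If `F` is finite, no nonempty class `Φ(t)` for a bound `t` that does not tend to infinity is
closed under finite variation.  If halt nodes may output any variable, then for every universal
interpretation and every total recursive `t` that tends to infinity the class `Φ(t)` is closed under
finite variation. -/
theorem exact_description :
    (∀ (F : Interp) (O : Set ℕ), F.fn.Finite → F.pr.Finite → ∀ t : ℕ → ℕ, Computable t →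
      ¬ Tendsto t atTop atTop → (∃ f, InClass F O t f) → ¬ InvariantAt F O t) ∧
    (∀ F : Interp, Universal F Set.univ → ∀ t : ℕ → ℕ, Computable t →
      Tendsto t atTop atTop → InvariantAt F Set.univ t) := by
  refine ⟨?_, ?_⟩
  · rintro F O hfn hpr t - ht ⟨f, hf⟩
    exact not_invariantAt hfn hpr ht hf
  · intro F hF t _ ht
    exact invariantAt_of_tendsto hF ht

end Pool.Agent.Lib_helper79.Flowchart
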