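import Pool.Agent.Lib_helper79.Flowchart.Defs

open Filter Function

namespace Pool.Agent.Lib_helper79.Flowchart

variable {F : Interp}

/-! ### Fuel semantics -/

/-- Execution with at most `k` node executions. -/
def Flowchart.exec (P : Flowchart F) : ℕ → P.N → (ℕ → ℕ) → Option ℕ
  | 0, _, _ => none
  | k + 1, q, s =>
    match P.instr q with
    | .op g args dst next => P.exec k next (update s dst (ap g.1.2 args s))
    | .test p args yes no => if ap p.1.2 args s = true then P.exec k yes s else P.exec k no s
    | .halt out => some (s out)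

theorem exec_zero (P : Flowchart F) (q : P.N) (s : ℕ → ℕ) : P.exec 0 q s = none := rfl

theorem exec_op (P : Flowchart F) {q : P.N} {g : F.fn} {args : Fin g.1.1 → ℕ} {dst : ℕ}
    {next : P.N} (h : P.instr q = .op g args dst next) (k : ℕ) (s : ℕ → ℕ) :
    P.exec (k + 1) q s = P.exec k next (update s dst (ap g.1.2 args s)) := by
  simp [Flowchart.exec, h]

theorem exec_test (P : Flowchart F) {q : P.N} {p : F.pr} {args : Fin p.1.1 → ℕ}
    {yes no : P.N} (h : P.instr q = .test p args yes no) (k : ℕ) (s : ℕ → ℕ) :
    P.exec (k + 1) q s = if ap p.1.2 args s = true then P.exec k yes s else P.exec k no s := by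
  simp [Flowchart.exec, h]

theorem exec_halt (P : Flowchart F) {q : P.N} {out : ℕ} (h : P.instr q = .halt out) (k : ℕ)
    (s : ℕ → ℕ) : P.exec (k + 1) q s = some (s out) := by
  simp [Flowchart.exec, h]

theorem exec_mono (P : Flowchart F) : ∀ {k q s y}, P.exec k q s = some y →
    P.exec (k + 1) q s = some y
  | 0, q, s, y, h => by simp [Flowchart.exec] at h
  | k + 1, q, s, y, h => by
    rw [Flowchart.exec] at h ⊢
    cases hq : P.instr q with
    | op g args dst next => simp only [hq] at h ⊢; exact exec_mono P h
    | test p args yes no =>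
      simp only [hq] at h ⊢
      split_ifs at h ⊢ with hp
      · exact exec_mono P h
      · exact exec_mono P h
    | halt out => simpa only [hq] using h

theorem exec_mono' (P : Flowchart F) {k l : ℕ} (hkl : k ≤ l) {q s y}
    (h : P.exec k q s = some y) : P.exec l q s = some y := by
  induction hkl with
  | refl => exact h
  | step _ ih => exact exec_mono P ih

theorem exec_of_run (P : Flowchart F) {q s n y} (h : P.Run q s n y) : P.exec n q s = some y := by
  induction h with
  | halt h => simp [Flowchart.exec, h]
  | op h r ih => simp [Flowchart.exec, h, ih]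
  | test_yes h hp r ih => simp [Flowchart.exec, h, hp, ih]
  | test_no h hp r ih => simp [Flowchart.exec, h, hp, ih]

theorem run_of_exec (P : Flowchart F) : ∀ {k q s y}, P.exec k q s = some y →
    ∃ n ≤ k, P.Run q s n y
  | 0, q, s, y, h => by simp [Flowchart.exec] at h
  | k + 1, q, s, y, h => by
    rw [Flowchart.exec] at h
    cases hq : P.instr q with
    | op g args dst next =>
      simp only [hq] at h
      obtain ⟨n, hn, hr⟩ := run_of_exec P h
      exact ⟨n + 1, by omega, .op hq hr⟩
    | test p args yes no =>
      simp only [hq] at h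
      split_ifs at h with hp
      · obtain ⟨n, hn, hr⟩ := run_of_exec P h
        exact ⟨n + 1, by omega, .test_yes hq hp hr⟩
      · obtain ⟨n, hn, hr⟩ := run_of_exec P h
        exact ⟨n + 1, by omega, .test_no hq (by simpa using hp) hr⟩
    | halt out =>
      simp only [hq, Option.some.injEq] at h
      subst h
      exact ⟨1, by omega, .halt hq⟩

theorem exec_unique (P : Flowchart F) {k l q s y z} (h : P.exec k q s = some y)
    (h' : P.exec l q s = some z) : y = z := by
  have h1 := exec_mono' P (le_max_left k l) h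
  have h2 := exec_mono' P (le_max_right k l) h'
  rw [h1] at h2
  exact Option.some.inj h2

theorem computes_iff (P : Flowchart F) (f : ℕ →. ℕ) :
    P.Computes f ↔ ∀ x y, y ∈ f x ↔ ∃ k, P.exec k P.first (init x) = some y := by
  have key : ∀ x y, (∃ n, P.Halts x n y) ↔ ∃ k, P.exec k P.first (init x) = some y := by
    intro x y
    constructor
    · rintro ⟨n, m, -, hm⟩
      exact ⟨m, exec_of_run P hm⟩
    · rintro ⟨k, hk⟩
      obtain ⟨n, -, hn⟩ := run_of_exec P hk
      exact ⟨n + 1, n, rfl, hn⟩
  constructor
  · intro h x y; rw [h x y, key]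
  · intro h x y; rw [h x y, key]

theorem computes_total_iff (P : Flowchart F) (f : ℕ → ℕ) :
    P.Computes (f : ℕ →. ℕ) ↔ ∀ x, ∃ k, P.exec k P.first (init x) = some (f x) := by
  rw [computes_iff]
  constructor
  · intro h x
    exact (h x (f x)).1 (Part.mem_some _)
  · intro h x y
    obtain ⟨k, hk⟩ := h x
    constructor
    · intro hy
      have hy' : y = f x := Part.mem_some_iff.1 hy
      subst hy'
      exact ⟨k, hk⟩
    · rintro ⟨l, hl⟩
      exact Part.mem_some_iff.2 (exec_unique P hl hk)

theorem halts_le_iff (P : Flowchart F) (x t : ℕ) :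
    (∃ n y, P.Halts x n y ∧ n ≤ t + 1) ↔ ∃ y, P.exec t P.first (init x) = some y := by
  constructor
  · rintro ⟨n, y, ⟨m, rfl, hm⟩, hn⟩
    exact ⟨y, exec_mono' P (by omega) (exec_of_run P hm)⟩
  · rintro ⟨y, hy⟩
    obtain ⟨n, hn, hr⟩ := run_of_exec P hy
    exact ⟨n + 1, y, ⟨n, rfl, hr⟩, by omega⟩

/-! ### A finite universal interpretation -/

section universal

open Nat.Partrec

/-- the predicate: the code `v₀` halts on input `v₁` with fuel `v₂` -/
def tPred (v : List.Vector ℕ 3) : Bool :=
  (Code.evaln (v.get 2) (Denumerable.ofNat Code (v.get 0)) (v.get 1)).isSome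

/-- the value of the code `v₀` on input `v₁` computed with fuel `v₂` -/
def uFun (v : List.Vector ℕ 3) : ℕ :=
  (Code.evaln (v.get 2) (Denumerable.ofNat Code (v.get 0)) (v.get 1)).getD 0

def sFun (v : List.Vector ℕ 1) : ℕ := v.get 0 + 1

theorem evaln_vec_primrec : Primrec (fun v : List.Vector ℕ 3 =>
    Code.evaln (v.get 2) (Denumerable.ofNat Code (v.get 0)) (v.get 1)) := by
  have h0 : Primrec (fun v : List.Vector ℕ 3 => v.get 0) :=
    Primrec.vector_get.comp Primrec.id (Primrec.const 0)
  have h1 : Primrec (fun v : List.Vector ℕ 3 => v.get 1) :=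
    Primrec.vector_get.comp Primrec.id (Primrec.const 1)
  have h2 : Primrec (fun v : List.Vector ℕ 3 => v.get 2) :=
    Primrec.vector_get.comp Primrec.id (Primrec.const 2)
  exact Code.primrec_evaln.comp
    (Primrec.pair (Primrec.pair h2 ((Primrec.ofNat Code).comp h0)) h1)

theorem tPred_computable : Computable tPred :=
  (Primrec.option_isSome.comp evaln_vec_primrec).to_comp

theorem uFun_computable : Computable uFun :=
  (Primrec.option_getD.comp evaln_vec_primrec (Primrec.const 0)).to_comp

theorem sFun_computable : Computable sFun :=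
  (Primrec.succ.comp (Primrec.vector_get.comp Primrec.id (Primrec.const 0))).to_comp

/-- a finite universal interpretation -/
def F₀ : Interp where
  fn := {⟨1, sFun⟩, ⟨3, uFun⟩}
  pr := {⟨3, tPred⟩}
  fn_rec := by
    intro g hg
    rcases hg with rfl | hg
    · exact sFun_computable
    · rw [Set.mem_singleton_iff] at hg
      subst hg
      exact uFun_computable
  pr_rec := by
    intro g hg
    rw [Set.mem_singleton_iff] at hg
    subst hg
    exact tPred_computable

def sIn : F₀.fn := ⟨⟨1, sFun⟩, Or.inl rfl⟩
def uIn : F₀.fn := ⟨⟨3, uFun⟩, Or.inr rfl⟩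
def tIn : F₀.pr := ⟨⟨3, tPred⟩, rfl⟩

/-- The flowchart evaluating the code number `e`: variable 1 holds `e`, variable 2 the fuel; the
output variable is `o`. -/
def evalChart (o e : ℕ) : Flowchart F₀ where
  N := Fin (e + 4)
  finite_N := inferInstance
  first := ⟨0, by omega⟩
  instr q :=
    if h : q.1 < e then .op sIn (fun _ => 1) 1 ⟨q.1 + 1, by omega⟩
    else if q.1 = e then .test tIn ![1, 0, 2] ⟨e + 2, by omega⟩ ⟨e + 1, by omega⟩
    else if q.1 = e + 1 then .op sIn (fun _ => 2) 2 ⟨e, by omega⟩
    else if q.1 = e + 2 then .op uIn ![1, 0, 2] o ⟨e + 3, by omega⟩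
    else .halt o

/-- the memory during the computation -/
def mem3 (x a b : ℕ) : ℕ → ℕ := fun v => if v = 0 then x else if v = 1 then a else if v = 2 then b
  else 0

theorem ap_t (x a b : ℕ) : ap tPred ![1, 0, 2] (mem3 x a b) =
    (Code.evaln b (Denumerable.ofNat Code a) x).isSome := by
  simp [ap, tPred, mem3]

theorem ap_u (x a b : ℕ) : ap uFun ![1, 0, 2] (mem3 x a b) =
    (Code.evaln b (Denumerable.ofNat Code a) x).getD 0 := by
  simp [ap, uFun, mem3]

theorem ap_s1 (x a b : ℕ) : ap sFun (fun _ => 1) (mem3 x a b) = a + 1 := by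
  simp [ap, sFun, mem3]

theorem ap_s2 (x a b : ℕ) : ap sFun (fun _ => 2) (mem3 x a b) = b + 1 := by
  simp [ap, sFun, mem3]

theorem update_mem1 (x a b c : ℕ) : update (mem3 x a b) 1 c = mem3 x c b := by
  funext v
  by_cases h : v = 1 <;> simp [update, mem3, h]

theorem update_mem2 (x a b c : ℕ) : update (mem3 x a b) 2 c = mem3 x a c := by
  funext v
  by_cases h : v = 2 <;> simp [update, mem3, h]

theorem evalChart_inc (o e x i k : ℕ) (hi : i < e) :
    (evalChart o e).exec (k + 1) ⟨i, by omega⟩ (mem3 x i 0) =
      (evalChart o e).exec k ⟨i + 1, by omega⟩ (mem3 x (i + 1) 0) := by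
  have h : (evalChart o e).instr ⟨i, by omega⟩ = .op sIn (fun _ => 1) 1 ⟨i + 1, by omega⟩ := by
    simp [evalChart, hi]
  rw [exec_op _ h]
  show (evalChart o e).exec k _ (update _ 1 (ap sFun (fun _ => 1) (mem3 x i 0))) = _
  rw [ap_s1, update_mem1]

theorem evalChart_incs (o e x k : ℕ) : ∀ (d i : ℕ) (hi : i + d = e),
    (evalChart o e).exec (k + d) ⟨i, by omega⟩ (mem3 x i 0) =
      (evalChart o e).exec k ⟨e, by omega⟩ (mem3 x e 0)
  | 0, i, hi => by
    have : i = e := by omega
    subst this
    rfl
  | d + 1, i, hi => by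
    rw [← Nat.add_assoc, evalChart_inc o e x i (k + d) (by omega)]
    exact evalChart_incs o e x k d (i + 1) (by omega)

theorem evalChart_test (o e x k n : ℕ) :
    (evalChart o e).exec (n + 1) ⟨e, by omega⟩ (mem3 x e k) =
      if (Code.evaln k (Denumerable.ofNat Code e) x).isSome = true then
        (evalChart o e).exec n ⟨e + 2, by omega⟩ (mem3 x e k)
      else (evalChart o e).exec n ⟨e + 1, by omega⟩ (mem3 x e k) := by
  have h : (evalChart o e).instr ⟨e, by omega⟩ =
      .test tIn ![1, 0, 2] ⟨e + 2, by omega⟩ ⟨e + 1, by omega⟩ := by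
    simp [evalChart]
  rw [exec_test _ h]
  show (if ap tPred ![1, 0, 2] (mem3 x e k) = true then _ else _) = _
  rw [ap_t]

theorem evalChart_bump (o e x k n : ℕ) :
    (evalChart o e).exec (n + 1) ⟨e + 1, by omega⟩ (mem3 x e k) =
      (evalChart o e).exec n ⟨e, by omega⟩ (mem3 x e (k + 1)) := by
  have h : (evalChart o e).instr ⟨e + 1, by omega⟩ = .op sIn (fun _ => 2) 2 ⟨e, by omega⟩ := by
    simp [evalChart]
  rw [exec_op _ h]
  show (evalChart o e).exec n _ (update _ 2 (ap sFun (fun _ => 2) (mem3 x e k))) = _
  rw [ap_s2, update_mem2]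

theorem evalChart_out (o e x k n : ℕ) :
    (evalChart o e).exec (n + 2) ⟨e + 2, by omega⟩ (mem3 x e k) =
      some ((Code.evaln k (Denumerable.ofNat Code e) x).getD 0) := by
  have h : (evalChart o e).instr ⟨e + 2, by omega⟩ = .op uIn ![1, 0, 2] o ⟨e + 3, by omega⟩ := by
    simp [evalChart]
  have h' : (evalChart o e).instr ⟨e + 3, by omega⟩ = .halt o := by
    simp [evalChart]
  rw [exec_op _ h, exec_halt _ h']
  show some ((update _ o (ap uFun ![1, 0, 2] (mem3 x e k)) : ℕ → ℕ) o) = _
  rw [ap_u]
  simp

theorem evalChart_sound (o e x : ℕ) : ∀ (n k : ℕ) (y : ℕ),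
    (evalChart o e).exec n ⟨e, by omega⟩ (mem3 x e k) = some y →
    ∃ j, Code.evaln j (Denumerable.ofNat Code e) x = some y := by
  intro n
  induction n using Nat.strong_induction_on with
  | _ n ih =>
    intro k y h
    match n, ih, h with
    | 0, _, h => simp [Flowchart.exec] at h
    | n + 1, ih, h =>
      rw [evalChart_test] at h
      split_ifs at h with hs
      · have h2 := exec_mono' _ (Nat.le_add_right n 2) h
        rw [evalChart_out] at h2
        obtain ⟨z, hz⟩ := Option.isSome_iff_exists.1 hs
        refine ⟨k, ?_⟩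
        rw [hz] at h2 ⊢
        simpa using h2
      · match n, ih, h with
        | 0, _, h => simp [Flowchart.exec] at h
        | n + 1, ih, h =>
          rw [evalChart_bump] at h
          exact ih n (by omega) (k + 1) y h

theorem evalChart_complete (o e x y j : ℕ)
    (hj : Code.evaln j (Denumerable.ofNat Code e) x = some y) : ∀ (d k : ℕ), k + d = j →
    ∃ n, (evalChart o e).exec n ⟨e, by omega⟩ (mem3 x e k) = some y := by
  have hval : ∀ k, (Code.evaln k (Denumerable.ofNat Code e) x).isSome = true →
      Code.evaln k (Denumerable.ofNat Code e) x = some y := by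
    intro k hk
    obtain ⟨z, hz⟩ := Option.isSome_iff_exists.1 hk
    have h1 : y ∈ Code.eval (Denumerable.ofNat Code e) x := Code.evaln_sound hj
    have h2 : z ∈ Code.eval (Denumerable.ofNat Code e) x := Code.evaln_sound hz
    rw [hz, Part.mem_unique h1 h2]
  intro d
  induction d with
  | zero =>
    intro k hk
    have : k = j := by omega
    subst this
    refine ⟨3, ?_⟩
    rw [evalChart_test, if_pos (by rw [hj]; rfl)]
    show (evalChart o e).exec (0 + 2) _ _ = _
    rw [evalChart_out, hj]
    rfl
  | succ d ih =>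
    intro k hk
    by_cases hs : (Code.evaln k (Denumerable.ofNat Code e) x).isSome = true
    · refine ⟨3, ?_⟩
      rw [evalChart_test, if_pos hs]
      show (evalChart o e).exec (0 + 2) _ _ = _
      rw [evalChart_out, hval k hs]
      rfl
    · obtain ⟨n, hn⟩ := ih (k + 1) (by omega)
      refine ⟨n + 2, ?_⟩
      rw [evalChart_test, if_neg hs, evalChart_bump]
      exact hn

theorem init_eq (x : ℕ) : init x = mem3 x 0 0 := by
  funext v
  simp only [init, mem3]
  split_ifs <;> rfl

theorem F₀_universal (O : Set ℕ) (hO : O.Nonempty) : Universal F₀ O := by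
  obtain ⟨o, ho⟩ := hO
  intro f hf
  obtain ⟨c, rfl⟩ := Code.exists_code.1 hf
  refine ⟨evalChart o (Encodable.encode c), ?_, ?_⟩
  · intro q out h
    simp only [evalChart] at h
    split_ifs at h
    · simp only [Instr.halt.injEq] at h
      rw [← h]
      exact ho
  rw [computes_iff]
  set e := Encodable.encode c with he
  have hc : Denumerable.ofNat Code e = c := by rw [he]; exact Denumerable.ofNat_encode c
  intro x y
  have hfirst : (evalChart o e).first = ⟨0, by omega⟩ := rfl
  rw [hfirst, init_eq, Code.evaln_complete]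
  constructor
  · rintro ⟨j, hj⟩
    obtain ⟨n, hn⟩ := evalChart_complete o e x y j (by rw [hc]; exact hj) j 0 (by omega)
    refine ⟨n + e, ?_⟩
    rw [evalChart_incs o e x n e 0 (by omega)]
    exact hn
  · rintro ⟨k, hk⟩
    have h2 := exec_mono' _ (Nat.le_add_right k e) hk
    rw [evalChart_incs o e x k e 0 (by omega)] at h2
    obtain ⟨j, hj⟩ := evalChart_sound o e x k 0 y h2
    rw [hc] at hj
    exact ⟨j, hj⟩

end universal

/-! ### Bounded computations over a finite interpretation -/

section bounded

/-- The functions of the input which a variable may hold after one more operation, if all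
variables hold functions from `C`. -/
def nextVals (F : Interp) (C : Set (ℕ → ℕ)) : Set (ℕ → ℕ) :=
  C ∪ ⋃ g ∈ F.fn, (fun c : Fin g.1 → (ℕ → ℕ) =>
    fun x => g.2 (List.Vector.ofFn fun i => c i x)) '' {c | ∀ i, c i ∈ C}

theorem nextVals_finite (hF : F.fn.Finite) {C : Set (ℕ → ℕ)} (hC : C.Finite) :
    (nextVals F C).Finite :=
  hC.union (hF.biUnion fun _ _ => Set.Finite.image _ (Set.Finite.pi' fun _ => hC))

/-- The possible results, as functions of the input, of at most `k` node executions. -/
def resSet (F : Interp) : ℕ → Set (ℕ → ℕ) → Set (ℕ → Option ℕ)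
  | 0, _ => {fun _ => none}
  | k + 1, C => ((fun c : ℕ → ℕ => fun x => some (c x)) '' C ∪ resSet F k (nextVals F C)) ∪
      ⋃ p ∈ F.pr, (fun a : (Fin p.1 → (ℕ → ℕ)) × (ℕ → Option ℕ) × (ℕ → Option ℕ) =>
        fun x => if p.2 (List.Vector.ofFn fun i => a.1 i x) = true then a.2.1 x else a.2.2 x) ''
          ({c | ∀ i, c i ∈ C} ×ˢ (resSet F k C ×ˢ resSet F k C))

theorem resSet_finite (hfn : F.fn.Finite) (hpr : F.pr.Finite) : ∀ (k : ℕ) {C : Set (ℕ → ℕ)},
    C.Finite → (resSet F k C).Finite
  | 0, _, _ => Set.finite_singleton _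
  | k + 1, _, hC => by
    refine ((hC.image _).union (resSet_finite hfn hpr k (nextVals_finite hfn hC))).union
      (hpr.biUnion fun p _ => Set.Finite.image _ ?_)
    exact (Set.Finite.pi' fun _ => hC).prod
      ((resSet_finite hfn hpr k hC).prod (resSet_finite hfn hpr k hC))

theorem exec_mem_resSet (P : Flowchart F) : ∀ (k : ℕ) (q : P.N) (M : ℕ → ℕ → ℕ)
    (C : Set (ℕ → ℕ)), (∀ v, M v ∈ C) → (fun x => P.exec k q (fun v => M v x)) ∈ resSet F k C
  | 0, q, M, C, _ => rfl
  | k + 1, q, M, C, hM => by
    cases hq : P.instr q with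
    | op g args dst next =>
      refine Or.inl (Or.inr ?_)
      have h1 : (fun x => P.exec (k + 1) q (fun v => M v x)) =
          fun x => P.exec k next (fun v => (update M dst
            (fun x => g.1.2 (List.Vector.ofFn fun i => M (args i) x))) v x) := by
        funext x
        rw [exec_op P hq]
        congr 1
        funext v
        by_cases hv : v = dst
        · subst hv
          simp [ap]
        · simp [hv]
      rw [h1]
      apply exec_mem_resSet P k next
      intro v
      by_cases hv : v = dst
      · subst hv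
        rw [update_self]
        exact Or.inr (Set.mem_biUnion g.2 ⟨fun i => M (args i), fun i => hM _, rfl⟩)
      · rw [update_of_ne hv]
        exact Or.inl (hM v)
    | test p args yes no =>
      refine Or.inr (Set.mem_biUnion p.2 ⟨(fun i => M (args i),
        fun x => P.exec k yes (fun v => M v x), fun x => P.exec k no (fun v => M v x)),
        ⟨fun i => hM _, exec_mem_resSet P k yes M C hM, exec_mem_resSet P k no M C hM⟩, ?_⟩)
      funext x
      rw [exec_test P hq]
      rfl
    | halt out =>
      refine Or.inl (Or.inl ⟨M out, hM out, ?_⟩)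
      funext x
      rw [exec_halt P hq]

theorem exists_update_not_inClass (O : Set ℕ) (hfn : F.fn.Finite) (hpr : F.pr.Finite)
    {t : ℕ → ℕ} (ht : ¬ Tendsto t atTop atTop) (f : ℕ → ℕ) :
    ∃ a b, ¬ InClass F O t (update f a b) := by
  by_contra! h
  have h' : ∀ a b, ∃ P : Flowchart F, P.OutIn O ∧
    P.Computes ((update f a b : ℕ → ℕ) : ℕ →. ℕ) ∧
    ∀ᶠ x in atTop, ∃ n y, P.Halts x n y ∧ n ≤ t x := fun a b => (h a b).2
  choose P _ hcomp hbd using h'
  rw [tendsto_atTop] at ht
  push Not at ht
  obtain ⟨K, hK⟩ := ht
  set r : ℕ → ℕ → ℕ → Option ℕ := fun a b x => (P a b).exec K (P a b).first (init x) with hr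
  set C₀ : Set (ℕ → ℕ) := {id, fun _ => 0} with hC₀
  have hC₀f : C₀.Finite := by rw [hC₀]; exact (Set.finite_singleton _).insert _
  have hSf := resSet_finite hfn hpr K hC₀f
  have hrS : ∀ a b, r a b ∈ resSet F K C₀ := by
    intro a b
    have h1 : r a b = fun x => (P a b).exec K (P a b).first
        (fun v => (if v = 0 then id else fun _ => 0 : ℕ → ℕ) x) := by
      funext x
      show (P a b).exec K (P a b).first (init x) = _
      congr 1
      funext v
      simp only [init]
      split_ifs <;> rfl
    rw [h1]
    apply exec_mem_resSet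
    intro v
    by_cases hv : v = 0
    · simp [hv, hC₀]
    · simp [hv, hC₀]
  have h1 : ∀ a b x z, r a b x = some z → z = update f a b x := by
    intro a b x z hz
    obtain ⟨k, hk⟩ := (computes_total_iff _ _).1 (hcomp a b) x
    exact exec_unique _ hz hk
  have h2 : ∀ a b, ∀ᶠ x in atTop, t x < K → ∃ z, r a b x = some z := by
    intro a b
    filter_upwards [hbd a b] with x hx hxK
    obtain ⟨n, y, hy, hn⟩ := hx
    exact (halts_le_iff _ _ _).1 ⟨n, y, hy, by omega⟩
  have h3 : ∀ a, ∃ b, r a b a = none := by
    intro a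
    by_contra! h3
    have h4 : ∀ b, r a b a = some b := by
      intro b
      obtain ⟨z, hz⟩ := Option.ne_none_iff_exists'.1 (h3 b)
      have := h1 a b a z hz
      rw [update_self] at this
      rw [hz, this]
    have h5 : Injective (r a) := by
      intro b c hbc
      have := h4 b
      rw [hbc, h4 c] at this
      exact (Option.some.inj this).symm
    exact Set.infinite_of_injective_forall_mem h5 (fun b => hrS a b) hSf
  choose b hb using h3
  have h6 : ∃ r₀ ∈ resSet F K C₀, {a | t a < K ∧ r a (b a) = r₀}.Infinite := by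
    by_contra! h6
    have h7 : {a | t a < K} ⊆ ⋃ r₀ ∈ resSet F K C₀, {a | t a < K ∧ r a (b a) = r₀} := by
      intro a ha
      exact Set.mem_biUnion (hrS a (b a)) ⟨ha, rfl⟩
    have h8 : {a | t a < K}.Finite :=
      (hSf.biUnion fun r₀ hr₀ => h6 r₀ hr₀).subset h7
    have h9 : ∃ᶠ a in atTop, t a < K := by simpa using hK
    exact (Nat.frequently_atTop_iff_infinite.1 h9) h8
  obtain ⟨r₀, -, hinf⟩ := h6
  obtain ⟨a₀, -, ha₀⟩ := hinf.nonempty
  have h9 := (Nat.frequently_atTop_iff_infinite.2 hinf).and_eventually (h2 a₀ (b a₀))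
  obtain ⟨x, ⟨hx1, hx2⟩, hx3⟩ := h9.exists
  obtain ⟨z, hz⟩ := hx3 hx1
  rw [ha₀, ← hx2, hb x] at hz
  cases hz

end bounded

/-! ### The classes of constant complexity two -/

theorem computable_init (o : ℕ) : Computable (fun x => init x o) := by
  by_cases ho : o = 0
  · simp only [init, ho, if_true]
    exact Computable.id
  · simp only [init, ho, if_false]
    exact Computable.const 0

theorem inClass_two (F : Interp) {O : Set ℕ} {o : ℕ} (ho : o ∈ O) :
    InClass F O (fun _ => 2) (fun x => init x o) := by
  refine ⟨computable_init o, ⟨Unit, inferInstance, (), fun _ => .halt o⟩, ?_, ?_, ?_⟩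
  · intro q out h
    simp only [Instr.halt.injEq] at h
    rw [← h]
    exact ho
  · rw [computes_total_iff]
    intro x
    exact ⟨1, rfl⟩
  · refine Eventually.of_forall fun x => ⟨2, init x o, ⟨1, rfl, ?_⟩, le_rfl⟩
    exact Flowchart.Run.halt (P := ⟨Unit, inferInstance, (), fun _ => .halt o⟩)
      (q := ()) (s := init x) (out := o) rfl

theorem computable_update {f : ℕ → ℕ} (hf : Computable f) (a b : ℕ) :
    Computable (update f a b) := by
  have h : Computable (fun x : ℕ => bif decide (x = a) then b else f x) := by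
    refine Computable.cond ?_ (Computable.const b) hf
    exact (PrimrecPred.decide (Primrec.eq.comp Primrec.id (Primrec.const a))).to_comp
  refine h.of_eq fun x => ?_
  by_cases hx : x = a <;> simp [hx, update]

theorem Universal.nonempty {O : Set ℕ} (hF : Universal F O) : O.Nonempty := by
  obtain ⟨P, hP, hc⟩ := hF (fun _ => Part.some 0) (Partrec.nat_iff.1 (Computable.const 0))
  obtain ⟨n, m, -, hr⟩ := (hc 0 0).1 (Part.mem_some 0)
  have key : ∀ {q : P.N} {s : ℕ → ℕ} {m y : ℕ}, P.Run q s m y → O.Nonempty := by
    intro q s m y h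
    induction h with
    | halt h => exact ⟨_, hP _ _ h⟩
    | op _ _ ih => exact ih
    | test_yes _ _ _ ih => exact ih
    | test_no _ _ _ ih => exact ih
  exact key hr

theorem not_finitelyInvariant {O : Set ℕ} (hO : O.Nonempty) : ¬ FinitelyInvariant F O := by
  intro h
  obtain ⟨o, ho⟩ := hO
  have h1 := h (fun _ => 2) (Computable.const 2) (fun x => init x o)
    (update (fun x => init x o) 0 1) (computable_init o)
    (computable_update (computable_init o) 0 1)
    (by filter_upwards [eventually_gt_atTop 0] with x hx; rw [update_of_ne (by omega)])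
    (inClass_two F ho)
  obtain ⟨-, P, -, hP, hb⟩ := h1
  rw [computes_total_iff] at hP
  obtain ⟨x, n, y, hn, hle⟩ := hb.exists
  obtain ⟨z, hz⟩ := (halts_le_iff P x 1).1 ⟨n, y, hn, hle⟩
  obtain ⟨k, hk⟩ := hP 0
  cases hq : P.instr P.first with
  | op g args dst next =>
    rw [exec_op P hq, exec_zero] at hz
    cases hz
  | test p args yes no =>
    rw [exec_test P hq, exec_zero, exec_zero] at hz
    simp at hz
  | halt out =>
    have h2 := exec_halt P hq 0 (init 0)
    have h3 := exec_unique P h2 hk
    simp [init] at h3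

/-! ### Realizable behaviours -/

section realizable

/-- A behaviour: the result of a computation as a function of fuel and memory. -/
abbrev Beh := ℕ → (ℕ → ℕ) → Option ℕ

/-- A behaviour is realizable if it is the behaviour of a flowchart over `F`. -/
def Realizable (F : Interp) (β : Beh) : Prop :=
  ∃ P : Flowchart F, ∀ k s, P.exec k P.first s = β k s

def haltBeh (o : ℕ) : Beh
  | 0, _ => none
  | _ + 1, s => some (s o)

def opBeh (g : F.fn) (args : Fin g.1.1 → ℕ) (dst : ℕ) (β : Beh) : Beh
  | 0, _ => none
  | k + 1, s => β k (update s dst (ap g.1.2 args s))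

def testBeh (p : F.pr) (args : Fin p.1.1 → ℕ) (β γ : Beh) : Beh
  | 0, _ => none
  | k + 1, s => if ap p.1.2 args s = true then β k s else γ k s

def Instr.map {N M : Type} (φ : N → M) : Instr F N → Instr F M
  | .op g args dst next => .op g args dst (φ next)
  | .test p args yes no => .test p args (φ yes) (φ no)
  | .halt out => .halt out

theorem exec_map {P Q : Flowchart F} (φ : P.N → Q.N)
    (h : ∀ q, Q.instr (φ q) = (P.instr q).map φ) : ∀ k q s, Q.exec k (φ q) s = P.exec k q s
  | 0, q, s => rfl
  | k + 1, q, s => by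
    have hq' := h q
    cases hq : P.instr q with
    | op g args dst next =>
      rw [hq] at hq'
      rw [exec_op P hq, exec_op Q (g := g) (args := args) (dst := dst) (next := φ next) hq',
        exec_map φ h k]
    | test p args yes no =>
      rw [hq] at hq'
      rw [exec_test P hq, exec_test Q (p := p) (args := args) (yes := φ yes) (no := φ no) hq',
        exec_map φ h k, exec_map φ h k]
    | halt out =>
      rw [hq] at hq'
      rw [exec_halt P hq, exec_halt Q (out := out) hq']

theorem realizable_halt (o : ℕ) : Realizable F (haltBeh o) := by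
  refine ⟨⟨Unit, inferInstance, (), fun _ => .halt o⟩, ?_⟩
  intro k s
  cases k <;> rfl

theorem realizable_op (g : F.fn) (args : Fin g.1.1 → ℕ) (dst : ℕ) {β : Beh}
    (h : Realizable F β) : Realizable F (opBeh g args dst β) := by
  obtain ⟨P, hP⟩ := h
  have := P.finite_N
  let Q : Flowchart F := ⟨Option P.N, inferInstance, none, fun q => match q with
    | none => .op g args dst (some P.first)
    | some q => (P.instr q).map some⟩
  refine ⟨Q, ?_⟩
  intro k s
  cases k with
  | zero => rfl
  | succ k =>
    rw [exec_op Q (q := none) (g := g) (args := args) (dst := dst) (next := some P.first) rfl,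
      exec_map (P := P) (Q := Q) some (fun _ => rfl) k, hP]
    rfl

theorem realizable_test (p : F.pr) (args : Fin p.1.1 → ℕ) {β γ : Beh}
    (hβ : Realizable F β) (hγ : Realizable F γ) : Realizable F (testBeh p args β γ) := by
  obtain ⟨P, hP⟩ := hβ
  obtain ⟨R, hR⟩ := hγ
  have := P.finite_N
  have := R.finite_N
  let Q : Flowchart F := ⟨Option (P.N ⊕ R.N), inferInstance, none, fun q => match q with
    | none => .test p args (some (.inl P.first)) (some (.inr R.first))
    | some (.inl q) => (P.instr q).map (fun q => some (.inl q))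
    | some (.inr q) => (R.instr q).map (fun q => some (.inr q))⟩
  refine ⟨Q, ?_⟩
  intro k s
  cases k with
  | zero => rfl
  | succ k =>
    rw [exec_test Q (q := none) (p := p) (args := args) (yes := some (.inl P.first))
      (no := some (.inr R.first)) rfl,
      exec_map (P := P) (Q := Q) (fun q => some (.inl q)) (fun _ => rfl) k,
      exec_map (P := R) (Q := Q) (fun q => some (.inr q)) (fun _ => rfl) k, hP, hR]
    rfl

/-- The physical location of the virtual variable `v` of a program working in block `j`; the
virtual variable `0` is read from the physical variable `0` until it is overwritten for the first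
time (`b = true` means that this has happened). -/
def loc (j : ℕ) (b : Bool) (v : ℕ) : ℕ := if v = 0 ∧ b = false then 0 else Nat.pair j v + 1

theorem loc_update (j : ℕ) (b : Bool) (dst y : ℕ) (s : ℕ → ℕ) :
    (fun v => (update s (Nat.pair j dst + 1) y) (loc j (b || decide (dst = 0)) v)) =
      update (fun v => s (loc j b v)) dst y := by
  funext v
  by_cases hv : v = dst
  · subst hv
    rw [update_self]
    have : loc j (b || decide (v = 0)) v = Nat.pair j v + 1 := by
      unfold loc
      rw [if_neg]
      rintro ⟨h1, h2⟩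
      simp [h1] at h2
    rw [this, update_self]
  · rw [update_of_ne hv]
    have h1 : loc j (b || decide (dst = 0)) v = loc j b v := by
      unfold loc
      by_cases hv0 : v = 0
      · have : dst ≠ 0 := fun h => hv (by omega)
        simp [this]
      · simp [hv0]
    rw [h1, update_of_ne]
    unfold loc
    split_ifs
    · omega
    · intro h
      have := (Nat.pair_eq_pair.1 (Nat.succ_injective h)).2
      exact hv this

theorem ap_loc {n : ℕ} {β : Type} (g : List.Vector ℕ n → β) (args : Fin n → ℕ) (j : ℕ) (b : Bool)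
    (s : ℕ → ℕ) : ap g (fun i => loc j b (args i)) s = ap g args (fun v => s (loc j b v)) := rfl

/-- The flowchart `P` working in block `j`. -/
def reloc (P : Flowchart F) (j : ℕ) (b₀ : Bool) (q₀ : P.N) : Flowchart F where
  N := Bool × P.N
  finite_N := by have := P.finite_N; infer_instance
  first := (b₀, q₀)
  instr := fun q => match P.instr q.2 with
    | .op g args dst next => .op g (fun i => loc j q.1 (args i)) (Nat.pair j dst + 1)
        (q.1 || decide (dst = 0), next)
    | .test p args yes no => .test p (fun i => loc j q.1 (args i)) (q.1, yes) (q.1, no)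
    | .halt out => .halt (loc j q.1 out)

theorem exec_reloc (P : Flowchart F) (j : ℕ) (b₀ : Bool) (q₀ : P.N) :
    ∀ k b q s, (reloc P j b₀ q₀).exec k (b, q) s = P.exec k q (fun v => s (loc j b v))
  | 0, b, q, s => rfl
  | k + 1, b, q, s => by
    cases hq : P.instr q with
    | op g args dst next =>
      have h : (reloc P j b₀ q₀).instr (b, q) = .op g (fun i => loc j b (args i))
          (Nat.pair j dst + 1) (b || decide (dst = 0), next) := by
        simp [reloc, hq]
      rw [exec_op P hq, exec_op _ h, exec_reloc P j b₀ q₀ k, loc_update, ap_loc]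
    | test p args yes no =>
      have h : (reloc P j b₀ q₀).instr (b, q) = .test p (fun i => loc j b (args i))
          (b, yes) (b, no) := by
        simp [reloc, hq]
      rw [exec_test P hq, exec_test _ h, exec_reloc P j b₀ q₀ k, exec_reloc P j b₀ q₀ k, ap_loc]
    | halt out =>
      have h : (reloc P j b₀ q₀).instr (b, q) = .halt (loc j b out) := by
        simp [reloc, hq]
      rw [exec_halt P hq, exec_halt _ h]

/-- The behaviour of `P` working in block `j`. -/
def relBeh (P : Flowchart F) (j : ℕ) (b : Bool) (q : P.N) : Beh :=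
  fun k s => P.exec k q (fun v => s (loc j b v))

theorem realizable_relBeh (P : Flowchart F) (j : ℕ) (b : Bool) (q : P.N) :
    Realizable F (relBeh P j b q) :=
  ⟨reloc P j b q, fun k s => exec_reloc P j b q k b q s⟩

/-- Work like `P` in block `j` for at most `d` node executions; when a halt node is reached among
the first `d` nodes continue with `onHalt`, otherwise continue with `onOut`. -/
def tree (P : Flowchart F) (j : ℕ) (onHalt : ℕ → Beh) (onOut : Bool → P.N → Beh) :
    ℕ → Bool → P.N → Beh
  | 0, b, q => onOut b q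
  | d + 1, b, q => match P.instr q with
    | .op g args dst next => opBeh g (fun i => loc j b (args i)) (Nat.pair j dst + 1)
        (tree P j onHalt onOut d (b || decide (dst = 0)) next)
    | .test p args yes no => testBeh p (fun i => loc j b (args i))
        (tree P j onHalt onOut d b yes) (tree P j onHalt onOut d b no)
    | .halt out => onHalt (loc j b out)

theorem realizable_tree (P : Flowchart F) (j : ℕ) {onHalt : ℕ → Beh}
    {onOut : Bool → P.N → Beh} (h1 : ∀ o, Realizable F (onHalt o))
    (h2 : ∀ b q, Realizable F (onOut b q)) : ∀ d b q,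
    Realizable F (tree P j onHalt onOut d b q)
  | 0, b, q => h2 b q
  | d + 1, b, q => by
    cases hq : P.instr q with
    | op g args dst next =>
      simp only [tree, hq]
      exact realizable_op _ _ _ (realizable_tree P j h1 h2 d _ _)
    | test p args yes no =>
      simp only [tree, hq]
      exact realizable_test _ _ (realizable_tree P j h1 h2 d _ _)
        (realizable_tree P j h1 h2 d _ _)
    | halt out =>
      simp only [tree, hq]
      exact h1 _

/-- the memories `s` and `s'` agree outside block `j` -/
def AgreeOff (j : ℕ) (s s' : ℕ → ℕ) : Prop :=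
  s' 0 = s 0 ∧ ∀ i, i ≠ j → ∀ v, s' (Nat.pair i v + 1) = s (Nat.pair i v + 1)

theorem agreeOff_refl (j : ℕ) (s : ℕ → ℕ) : AgreeOff j s s := ⟨rfl, fun _ _ _ => rfl⟩

theorem agreeOff_update {j dst y : ℕ} {s s' : ℕ → ℕ}
    (h : AgreeOff j (update s (Nat.pair j dst + 1) y) s') : AgreeOff j s s' := by
  obtain ⟨h1, h2⟩ := h
  refine ⟨?_, ?_⟩
  · rw [h1, update_of_ne (by omega)]
  · intro i hi v
    rw [h2 i hi v, update_of_ne]
    intro h
    exact hi (Nat.pair_eq_pair.1 (Nat.succ_injective h)).1

/-- evaluation of `tree` when a halt node is reached -/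
theorem tree_of_some (P : Flowchart F) (j : ℕ) (onHalt : ℕ → Beh) (onOut : Bool → P.N → Beh) :
    ∀ d b q s y, P.exec d q (fun v => s (loc j b v)) = some y →
    ∃ m ≤ d, ∃ s' o, AgreeOff j s s' ∧ s' o = y ∧ (o = 0 ∨ ∃ v, o = Nat.pair j v + 1) ∧
      ∀ k, tree P j onHalt onOut d b q (k + m) s = onHalt o k s'
  | 0, b, q, s, y, h => by simp [exec_zero] at h
  | d + 1, b, q, s, y, h => by
    cases hq : P.instr q with
    | op g args dst next =>
      rw [exec_op P hq, ← loc_update] at h
      obtain ⟨m, hm, s', o, h1, h2, h3, h4⟩ := tree_of_some P j onHalt onOut d _ _ _ _ h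
      refine ⟨m + 1, by omega, s', o, agreeOff_update h1, h2, h3, ?_⟩
      intro k
      simp only [tree, hq]
      rw [← Nat.add_assoc, opBeh, ap_loc]
      exact h4 k
    | test p args yes no =>
      rw [exec_test P hq] at h
      by_cases hp : ap p.1.2 args (fun v => s (loc j b v)) = true
      · rw [if_pos hp] at h
        obtain ⟨m, hm, s', o, h1, h2, h3, h4⟩ := tree_of_some P j onHalt onOut d _ _ _ _ h
        refine ⟨m + 1, by omega, s', o, h1, h2, h3, ?_⟩
        intro k
        simp only [tree, hq]
        rw [← Nat.add_assoc, testBeh, ap_loc, if_pos hp]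
        exact h4 k
      · rw [if_neg hp] at h
        obtain ⟨m, hm, s', o, h1, h2, h3, h4⟩ := tree_of_some P j onHalt onOut d _ _ _ _ h
        refine ⟨m + 1, by omega, s', o, h1, h2, h3, ?_⟩
        intro k
        simp only [tree, hq]
        rw [← Nat.add_assoc, testBeh, ap_loc, if_neg hp]
        exact h4 k
    | halt out =>
      rw [exec_halt P hq] at h
      refine ⟨0, by omega, s, loc j b out, agreeOff_refl j s, Option.some.inj h, ?_, ?_⟩
      · unfold loc
        split_ifs
        · exact Or.inl rfl
        · exact Or.inr ⟨out, rfl⟩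
      · intro k
        simp only [tree, hq]
        rfl

/-- evaluation of `tree` when no halt node is reached -/
theorem tree_of_none (P : Flowchart F) (j : ℕ) (onHalt : ℕ → Beh) (onOut : Bool → P.N → Beh) :
    ∀ d b q s, P.exec d q (fun v => s (loc j b v)) = none →
    ∃ s' b' q', AgreeOff j s s' ∧
      (∀ k, P.exec (k + d) q (fun v => s (loc j b v)) = P.exec k q' (fun v => s' (loc j b' v))) ∧
      ∀ k, tree P j onHalt onOut d b q (k + d) s = onOut b' q' k s'
  | 0, b, q, s, h => ⟨s, b, q, agreeOff_refl j s, fun _ => rfl, fun _ => rfl⟩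
  | d + 1, b, q, s, h => by
    cases hq : P.instr q with
    | op g args dst next =>
      rw [exec_op P hq, ← loc_update] at h
      obtain ⟨s', b', q', h1, h2, h3⟩ := tree_of_none P j onHalt onOut d _ _ _ h
      refine ⟨s', b', q', agreeOff_update h1, ?_, ?_⟩
      · intro k
        rw [← Nat.add_assoc, exec_op P hq, ← loc_update]
        exact h2 k
      · intro k
        simp only [tree, hq]
        rw [← Nat.add_assoc, opBeh, ap_loc]
        exact h3 k
    | test p args yes no =>
      rw [exec_test P hq] at h
      by_cases hp : ap p.1.2 args (fun v => s (loc j b v)) = true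
      · rw [if_pos hp] at h
        obtain ⟨s', b', q', h1, h2, h3⟩ := tree_of_none P j onHalt onOut d _ _ _ h
        refine ⟨s', b', q', h1, ?_, ?_⟩
        · intro k
          rw [← Nat.add_assoc, exec_test P hq, if_pos hp]
          exact h2 k
        · intro k
          simp only [tree, hq]
          rw [← Nat.add_assoc, testBeh, ap_loc, if_pos hp]
          exact h3 k
      · rw [if_neg hp] at h
        obtain ⟨s', b', q', h1, h2, h3⟩ := tree_of_none P j onHalt onOut d _ _ _ h
        refine ⟨s', b', q', h1, ?_, ?_⟩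
        · intro k
          rw [← Nat.add_assoc, exec_test P hq, if_neg hp]
          exact h2 k
        · intro k
          simp only [tree, hq]
          rw [← Nat.add_assoc, testBeh, ap_loc, if_neg hp]
          exact h3 k
    | halt out =>
      rw [exec_halt P hq] at h
      cases h

/-- the separation data used for patching: the flowchart `R a` halts exactly on the input `a`,
within `d a` node executions -/
structure SepData (F : Interp) where
  R : ℕ → Flowchart F
  d : ℕ → ℕ
  some_self : ∀ a, ∃ y, (R a).exec (d a) (R a).first (init a) = some y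
  none_ne : ∀ a x, x ≠ a → (R a).exec (d a) (R a).first (init x) = none

theorem exists_sepData {O : Set ℕ} (hF : Universal F O) : Nonempty (SepData F) := by
  have h : ∀ a : ℕ, ∃ P : Flowchart F, ∃ d : ℕ,
      (∃ y, P.exec d P.first (init a) = some y) ∧
      ∀ x, x ≠ a → P.exec d P.first (init x) = none := by
    intro a
    let f : ℕ →. ℕ := fun x => bif decide (x = a) then Part.some 0 else Part.none
    have hf : Nat.Partrec f := by
      have h1 : Partrec f := by
        refine Partrec.cond ?_ (Computable.const 0) Partrec.none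
        exact (PrimrecPred.decide (Primrec.eq.comp Primrec.id (Primrec.const a))).to_comp
      exact Partrec.nat_iff.1 h1
    obtain ⟨P, -, hP⟩ := hF f hf
    rw [computes_iff] at hP
    have h2 : (0 : ℕ) ∈ f a := by
      simp [f]
    obtain ⟨d, hd⟩ := (hP a 0).1 h2
    refine ⟨P, d, ⟨0, hd⟩, ?_⟩
    intro x hx
    by_contra h3
    obtain ⟨y, hy⟩ := Option.ne_none_iff_exists'.1 h3
    have h4 := (hP x y).2 ⟨d, hy⟩
    simp [f, hx] at h4
  choose R d h1 h2 using h
  exact ⟨⟨R, d, h1, h2⟩⟩

/-- Test for membership in the list, in the blocks `c, c + 1, ...`; run `S` in block `1` on the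
members, and output the variable `o` otherwise. -/
def patch (S : Flowchart F) (A : SepData F) (o : ℕ) : List ℕ → ℕ → Beh
  | [], _ => haltBeh o
  | a :: as, c => tree (A.R a) c (fun _ => relBeh S 1 false S.first)
      (fun _ _ => patch S A o as (c + 1)) (A.d a) false (A.R a).first

theorem realizable_patch (S : Flowchart F) (A : SepData F) (o : ℕ) : ∀ as c,
    Realizable F (patch S A o as c)
  | [], _ => realizable_halt o
  | a :: as, c => realizable_tree _ _ (fun _ => realizable_relBeh _ _ _ _)
      (fun _ _ => realizable_patch S A o as (c + 1)) _ _ _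

/-- the blocks `1` and `c, c + 1, ...` have not been used -/
def Clean (c x : ℕ) (s : ℕ → ℕ) : Prop :=
  s 0 = x ∧ (∀ v, s (Nat.pair 1 v + 1) = 0) ∧ ∀ j, c ≤ j → ∀ v, s (Nat.pair j v + 1) = 0

theorem virtual_init {j x : ℕ} {s : ℕ → ℕ} (h0 : s 0 = x)
    (h1 : ∀ v, s (Nat.pair j v + 1) = 0) : (fun v => s (loc j false v)) = init x := by
  funext v
  unfold loc init
  by_cases hv : v = 0
  · simp [hv, h0]
  · simp [hv, h1 v]

theorem Clean.agreeOff {c x : ℕ} {s s' : ℕ → ℕ} (h : Clean c x s) (hc : 2 ≤ c)
    (h' : AgreeOff c s s') : Clean (c + 1) x s' := by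
  refine ⟨h'.1.trans h.1, ?_, ?_⟩
  · intro v
    rw [h'.2 1 (by omega) v]
    exact h.2.1 v
  · intro j hj v
    rw [h'.2 j (by omega) v]
    exact h.2.2 j (by omega) v

theorem patch_of_mem {S : Flowchart F} {A : SepData F} {g : ℕ → ℕ}
    (hS : ∀ x, ∃ k, S.exec k S.first (init x) = some (g x)) (o : ℕ) : ∀ as c x s,
    2 ≤ c → Clean c x s → x ∈ as → ∃ k, patch S A o as c k s = some (g x)
  | [], _, _, _, _, _, h => by simp at h
  | a :: as, c, x, s, hc, hs, hx => by
    have hv : (fun v => s (loc c false v)) = init x := virtual_init hs.1 (hs.2.2 c le_rfl)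
    by_cases hxa : x = a
    · subst hxa
      obtain ⟨y, hy⟩ := A.some_self x
      rw [← hv] at hy
      obtain ⟨m, -, s', o', h1, -, -, h4⟩ := tree_of_some (A.R x) c
        (fun _ => relBeh S 1 false S.first) (fun _ _ => patch S A o as (c + 1)) _ _ _ _ _ hy
      obtain ⟨k, hk⟩ := hS x
      refine ⟨k + m, ?_⟩
      have h5 := h4 k
      rw [patch, h5, relBeh, virtual_init (h1.1.trans hs.1)]
      · exact hk
      · intro v
        rw [h1.2 1 (by omega) v]
        exact hs.2.1 v
    · have hn := A.none_ne a x hxa
      rw [← hv] at hn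
      obtain ⟨s', b', q', h1, -, h3⟩ := tree_of_none (A.R a) c
        (fun _ => relBeh S 1 false S.first) (fun _ _ => patch S A o as (c + 1)) _ _ _ _ hn
      have hx' : x ∈ as := by
        rcases List.mem_cons.1 hx with h | h
        · exact absurd h hxa
        · exact h
      obtain ⟨k, hk⟩ := patch_of_mem hS o as (c + 1) x s' (by omega) (hs.agreeOff hc h1) hx'
      refine ⟨k + A.d a, ?_⟩
      rw [patch, h3 k]
      exact hk

theorem patch_of_not_mem (S : Flowchart F) (A : SepData F) (o : ℕ)
    (ho : o = 0 ∨ ∃ v, o = Nat.pair 0 v + 1) : ∀ as c x s,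
    2 ≤ c → Clean c x s → x ∉ as → patch S A o as c ((as.map A.d).sum + 1) s = some (s o)
  | [], _, _, _, _, _, _ => rfl
  | a :: as, c, x, s, hc, hs, hx => by
    have hv : (fun v => s (loc c false v)) = init x := virtual_init hs.1 (hs.2.2 c le_rfl)
    have hxa : x ≠ a := fun h => hx (h ▸ List.mem_cons_self)
    have hx' : x ∉ as := fun h => hx (List.mem_cons_of_mem _ h)
    have hn := A.none_ne a x hxa
    rw [← hv] at hn
    obtain ⟨s', b', q', h1, -, h3⟩ := tree_of_none (A.R a) c
      (fun _ => relBeh S 1 false S.first) (fun _ _ => patch S A o as (c + 1)) _ _ _ _ hn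
    have h4 := patch_of_not_mem S A o ho as (c + 1) x s' (by omega) (hs.agreeOff hc h1) hx'
    have h5 : ((a :: as).map A.d).sum + 1 = ((as.map A.d).sum + 1) + A.d a := by
      simp only [List.map_cons, List.sum_cons]
      omega
    have h6 : s' o = s o := by
      rcases ho with rfl | ⟨v, rfl⟩
      · exact h1.1
      · exact h1.2 0 (by omega) v
    rw [h5, patch, h3, h4, h6]

theorem invariantAt_of_tendsto (hF : Universal F Set.univ) {t : ℕ → ℕ}
    (ht : Tendsto t atTop atTop) : InvariantAt F Set.univ t := by
  intro f g _ hg hfg hf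
  obtain ⟨-, P, -, hP, hPt⟩ := hf
  rw [computes_total_iff] at hP
  obtain ⟨A⟩ := exists_sepData hF
  obtain ⟨S, -, hS⟩ := hF (g : ℕ →. ℕ) (Partrec.nat_iff.1 hg)
  rw [computes_total_iff] at hS
  obtain ⟨N, hN⟩ := eventually_atTop.1 hfg
  set as := List.range N with has
  have hfg' : ∀ x, x ∉ as → f x = g x := by
    intro x hx
    apply hN
    rw [has, List.mem_range] at hx
    omega
  have hD : ∀ l : List ℕ, ∃ D, ∀ a ∈ l, ∃ y, P.exec D P.first (init a) = some y := by
    intro l
    induction l with
    | nil => exact ⟨0, by simp⟩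
    | cons a l ih =>
      obtain ⟨D, hD⟩ := ih
      obtain ⟨k, hk⟩ := hP a
      refine ⟨max D k, ?_⟩
      intro b hb
      rcases List.mem_cons.1 hb with rfl | hb
      · exact ⟨_, exec_mono' P (le_max_right _ _) hk⟩
      · obtain ⟨y, hy⟩ := hD b hb
        exact ⟨y, exec_mono' P (le_max_left _ _) hy⟩
  obtain ⟨D, hD⟩ := hD as
  set B := (as.map A.d).sum + 1 with hB
  set β : Beh := tree P 0 (fun o => patch S A o as 2) (fun b q => relBeh P 0 b q) D false P.first
    with hβ
  obtain ⟨Q, hQ⟩ : Realizable F β := realizable_tree P 0 (fun o => realizable_patch S A o as 2)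
    (fun b q => realizable_relBeh P 0 b q) D false P.first
  have hv : ∀ x, (fun v => init x (loc 0 false v)) = init x := fun x =>
    virtual_init (by simp [init]) (fun v => by simp [init])
  have hsome : ∀ x y, P.exec D P.first (init x) = some y →
      (∃ k, β k (init x) = some (g x)) ∧ (x ∉ as → ∃ k ≤ B + D, β k (init x) = some (g x)) := by
    intro x y hy
    have hfx : y = f x := by
      obtain ⟨k, hk⟩ := hP x
      exact exec_unique P hy hk
    rw [← hv x] at hy
    obtain ⟨m, hm, s', o, h1, h2, h3, h4⟩ := tree_of_some P 0 (fun o => patch S A o as 2)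
      (fun b q => relBeh P 0 b q) D false P.first (init x) y hy
    have hcl : Clean 2 x s' := by
      refine ⟨?_, ?_, ?_⟩
      · rw [h1.1]; simp [init]
      · intro v
        rw [h1.2 1 (by omega) v]
        simp [init]
      · intro j hj v
        rw [h1.2 j (by omega) v]
        simp [init]
    have hnot : x ∉ as → ∃ k ≤ B + D, β k (init x) = some (g x) := by
      intro hx
      refine ⟨B + m, by omega, ?_⟩
      rw [hβ, h4, patch_of_not_mem S A o h3 as 2 x s' le_rfl hcl hx, h2, hfx, hfg' x hx]
    refine ⟨?_, hnot⟩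
    by_cases hx : x ∈ as
    · obtain ⟨k, hk⟩ := patch_of_mem (A := A) hS o as 2 x s' le_rfl hcl hx
      refine ⟨k + m, ?_⟩
      rw [hβ, h4]
      exact hk
    · obtain ⟨k, -, hk⟩ := hnot hx
      exact ⟨k, hk⟩
  have hnone : ∀ x, P.exec D P.first (init x) = none → x ∉ as ∧
      ∀ l, D ≤ l → β l (init x) = P.exec l P.first (init x) := by
    intro x hn
    refine ⟨?_, ?_⟩
    · intro hx
      obtain ⟨y, hy⟩ := hD x hx
      rw [hn] at hy
      cases hy
    · intro l hl
      obtain ⟨k, rfl⟩ := Nat.exists_eq_add_of_le' hl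
      have hn' := hn
      rw [← hv x] at hn'
      obtain ⟨s', b', q', -, h2, h3⟩ := tree_of_none P 0 (fun o => patch S A o as 2)
        (fun b q => relBeh P 0 b q) D false P.first (init x) hn'
      have h5 := h2 k
      rw [hv x] at h5
      rw [hβ, h3 k, h5]
      rfl
  refine ⟨hg, Q, fun _ _ _ => Set.mem_univ _, ?_, ?_⟩
  · rw [computes_total_iff]
    intro x
    cases hx : P.exec D P.first (init x) with
    | some y =>
      obtain ⟨k, hk⟩ := (hsome x y hx).1
      exact ⟨k, by rw [hQ]; exact hk⟩
    | none =>
      obtain ⟨hx1, hx2⟩ := hnone x hx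
      obtain ⟨l, hl⟩ := hP x
      have h1 := exec_mono' P (le_max_right D l) hl
      refine ⟨max D l, ?_⟩
      rw [hQ, hx2 _ (le_max_left _ _), h1, hfg' x hx1]
  · filter_upwards [hPt, eventually_ge_atTop N, ht.eventually_ge_atTop (B + D + 1)]
      with x hx1 hx2 hx3
    obtain ⟨T, hT⟩ : ∃ T, t x = T + 1 := ⟨t x - 1, by omega⟩
    rw [hT] at hx1 ⊢
    rw [halts_le_iff] at hx1 ⊢
    have hxas : x ∉ as := by
      rw [has, List.mem_range]
      omega
    cases hx : P.exec D P.first (init x) with
    | some y =>
      obtain ⟨k, hk1, hk2⟩ := (hsome x y hx).2 hxas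
      refine ⟨g x, exec_mono' Q (k := k) (by omega) ?_⟩
      rw [hQ]
      exact hk2
    | none =>
      obtain ⟨-, hx5⟩ := hnone x hx
      obtain ⟨y, hy⟩ := hx1
      have hDT : D ≤ T := by
        by_contra hlt
        have := exec_mono' P (by omega : T ≤ D) hy
        rw [hx] at this
        cases this
      refine ⟨y, ?_⟩
      rw [hQ, hx5 T hDT]
      exact hy

end realizable

theorem not_invariantAt {O : Set ℕ} (hfn : F.fn.Finite) (hpr : F.pr.Finite) {t f : ℕ → ℕ}
    (ht : ¬ Tendsto t atTop atTop) (hf : InClass F O t f) : ¬ InvariantAt F O t := by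
  intro h
  obtain ⟨a, b, hab⟩ := exists_update_not_inClass O hfn hpr ht f
  refine hab (h f (update f a b) hf.1 (computable_update hf.1 a b) ?_ hf)
  filter_upwards [eventually_gt_atTop a] with x hx
  rw [update_of_ne (by omega)]

end Pool.Agent.Lib_helper79.Flowchart
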